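import Pool.Agent.helper99.IT.Spec

set_option autoImplicit false

namespace Pool.Agent.IT

open Finset Pool.Agent.AT

theorem GCT_inj (s : Fin 4 → ℕ) (α : Fin 4 → ℤ) (g : Fin 4 → Fin 4 → ℤ) (Γ : ℤ) (hs : ∀ i, 0 < s i) (hΓ : Γ ≠ 0)
    (hg : ∀ i j : Fin 4, i < j → g i j * ((s j : ℤ) * α i - s i * α j) = Γ) (i j : Fin 4) (hij : i < j) (t t' y y' : ℤ)
    (h1 : (s i : ℤ) * t + α i * y = s i * t' + α i * y') (h2 : (s j : ℤ) * t + α j * y = s j * t' + α j * y') :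
    t = t' ∧ y = y' := by
  have h3 : (s j : ℤ) * α i - s i * α j ≠ 0 := by
    intro h
    have := hg i j hij
    rw [h, mul_zero] at this
    exact hΓ this.symm
  have h4 : ((s j : ℤ) * α i - s i * α j) * (y - y') = 0 := by linear_combination (s j : ℤ) * h1 - (s i : ℤ) * h2
  have h5 : y - y' = 0 := (mul_eq_zero.mp h4).resolve_left h3
  have h6 : y = y' := sub_eq_zero.mp h5
  refine ⟨?_, h6⟩
  rw [h6] at h1
  have h7 : (s i : ℤ) * t = s i * t' := add_right_cancel h1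
  have h8 : (s i : ℤ) ≠ 0 := by exact_mod_cast (hs i).ne'
  exact mul_left_cancel₀ h8 h7

open Classical in
theorem GCT_card (L : ℕ) (B : ℤ → Prop) (Γ : ℤ) (Y : Finset ℕ) (hY : ∀ y : ℕ, y ∈ Y ↔ y < L ∧ B (Γ * (y : ℤ))) :
    (#{y ∈ range L | B (Γ * (y : ℤ))} : ℝ) = Y.card := by
  have h1 : Y.image (fun y : ℕ => (y : ℤ)) = {y ∈ range L | B (Γ * (y : ℤ))} := by
    ext y
    simp only [Finset.mem_image, Finset.mem_filter, Finset.bind_def, Finset.mem_sup, Finset.pure_def, Finset.mem_singleton, Finset.mem_range, hY]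
    constructor
    · rintro ⟨a, ⟨h1, h2⟩, rfl⟩
      exact ⟨⟨a, h1, rfl⟩, h2⟩
    · rintro ⟨⟨a, h1, rfl⟩, h2⟩
      exact ⟨a, ⟨h1, h2⟩, rfl⟩
  rw [← h1, Finset.card_image_of_injective _ Nat.cast_injective]

theorem GCT (hK4R : K4R_stmt) : GCT_stmt := by
  classical
  intro s α g Γ hs hΓ hg δ hδ
  set C : ℕ := ∑ i, (s i + (α i).natAbs) with hC
  have hCi : ∀ i, s i + (α i).natAbs ≤ C := fun i =>
    Finset.single_le_sum (f := fun i => s i + (α i).natAbs) (fun _ _ => Nat.zero_le _) (Finset.mem_univ i)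
  have hC1 : 1 ≤ C := le_trans (by have := hs 0; omega) (hCi 0)
  have hC0 : (0 : ℝ) < C := by exact_mod_cast hC1
  have hδ1 : 0 < δ / (9 * (C : ℝ) ^ 2) := by positivity
  obtain ⟨δ', hδ', key⟩ := hK4R _ hδ1
  refine ⟨δ', C, hδ', hC1, ?_⟩
  intro L B hL hB
  have hL0 : (1 : ℝ) ≤ L := by exact_mod_cast hL
  set Y : Finset ℕ := {y ∈ range L | B (Γ * (y : ℤ))} with hY
  let f : ℕ × ℕ → (Fin 4 → ℤ) := fun z i => (s i : ℤ) * z.1 + α i * z.2
  have hf : ∀ z i, f z i = (s i : ℤ) * z.1 + α i * z.2 := fun z i => rfl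
  have hBY := GCT_card L B Γ Y fun y => by rw [hY, Finset.mem_filter, Finset.mem_range]
  rw [hBY] at hB
  have hinj : Set.InjOn f ((range L ×ˢ Y : Finset (ℕ × ℕ)) : Set (ℕ × ℕ)) := by
    intro z _ z' _ hzz
    have h1 := GCT_inj s α g Γ hs hΓ hg 0 1 (by decide) z.1 z'.1 z.2 z'.2 (congrFun hzz 0) (congrFun hzz 1)
    exact Prod.ext (by exact_mod_cast h1.1) (by exact_mod_cast h1.2)
  have hcard : ((range L ×ˢ Y).image f).card = L * Y.card := by
    rw [Finset.card_image_of_injOn hinj, Finset.card_product, Finset.card_range]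
  have hNL : (((2 * C * L + 1 : ℕ) : ℕ) : ℝ) ≤ 3 * C * L := by
    have : 1 ≤ C * L := Nat.one_le_iff_ne_zero.2 (Nat.mul_ne_zero (by omega) (by omega))
    have h2 : 2 * C * L + 1 ≤ 3 * C * L := by nlinarith
    exact_mod_cast h2
  have hLN : (L : ℝ) ≤ ((2 * C * L + 1 : ℕ) : ℝ) := by
    have h2 : L ≤ 2 * C * L + 1 := by nlinarith
    exact_mod_cast h2
  have h := key (2 * C * L + 1) (fun _ => Icc (-((C * L : ℕ) : ℤ)) ((C * L : ℕ) : ℤ))
    (fun i j x y => B (g i j * ((s j : ℤ) * x - s i * y))) ((range L ×ˢ Y).image f) (by omega) ?_ ?_ ?_ ?_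
  · refine le_trans ?_ h
    have h1 : (L : ℝ) ^ 4 ≤ ((2 * C * L + 1 : ℕ) : ℝ) ^ 4 := pow_le_pow_left₀ (by positivity) hLN 4
    exact mul_le_mul_of_nonneg_left h1 hδ'.le
  · intro i
    rw [Int.card_Icc]
    have : ((((C * L : ℕ) : ℤ) + 1 - -((C * L : ℕ) : ℤ)).toNat) = 2 * C * L + 1 := by
      have h1 : (((C * L : ℕ) : ℤ) + 1 - -((C * L : ℕ) : ℤ)) = ((2 * C * L + 1 : ℕ) : ℤ) := by push_cast; ring
      rw [h1, Int.toNat_natCast]
    rw [this]
  · intro x hx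
    obtain ⟨z, hz, rfl⟩ := Finset.mem_image.1 hx
    obtain ⟨hz1, hz2⟩ := Finset.mem_product.1 hz
    obtain ⟨hz3, hz4⟩ := Finset.mem_filter.1 hz2
    have ht := Finset.mem_range.1 hz1
    have hy := Finset.mem_range.1 hz3
    refine ⟨fun i => ?_, fun i j hij => ?_⟩
    · rw [Finset.mem_Icc, hf]
      have h1 : |(s i : ℤ) * z.1 + α i * z.2| ≤ ((C * L : ℕ) : ℤ) := by
        have h2 : |(s i : ℤ) * z.1| ≤ (s i : ℤ) * L := by
          rw [abs_of_nonneg (by positivity)]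
          exact mul_le_mul_of_nonneg_left (by exact_mod_cast ht.le) (by positivity)
        have h3 : |α i * (z.2 : ℤ)| ≤ |α i| * L := by
          rw [abs_mul]
          refine mul_le_mul_of_nonneg_left ?_ (abs_nonneg _)
          rw [Nat.abs_cast]
          exact_mod_cast hy.le
        have h4 : (s i : ℤ) + |α i| ≤ C := by
          rw [Int.abs_eq_natAbs]
          exact_mod_cast hCi i
        have h5 := abs_add_le ((s i : ℤ) * z.1) (α i * (z.2 : ℤ))
        have h6 : ((s i : ℤ) + |α i|) * L ≤ C * L := mul_le_mul_of_nonneg_right h4 (by positivity)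
        push_cast
        nlinarith
      exact abs_le.1 h1
    · change B (g i j * ((s j : ℤ) * f z i - s i * f z j))
      have h1 : g i j * ((s j : ℤ) * f z i - s i * f z j) = Γ * (z.2 : ℤ) := by
        rw [hf, hf, ← hg i j hij]
        ring
      rw [h1]
      exact hz4
  · intro x hx x' hx' i j hij hi hj
    obtain ⟨z, hz, rfl⟩ := Finset.mem_image.1 hx
    obtain ⟨z', hz', rfl⟩ := Finset.mem_image.1 hx'
    obtain ⟨h1, h2⟩ := GCT_inj s α g Γ hs hΓ hg i j hij z.1 z'.1 z.2 z'.2 hi hj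
    funext k
    rw [hf, hf, h1, h2]
  · rw [hcard, Nat.cast_mul]
    have h1 : δ / (9 * (C : ℝ) ^ 2) * ((2 * C * L + 1 : ℕ) : ℝ) ^ 2 ≤ δ / (9 * (C : ℝ) ^ 2) * (3 * C * L) ^ 2 :=
      mul_le_mul_of_nonneg_left (pow_le_pow_left₀ (by positivity) hNL 2) hδ1.le
    have h2 : δ / (9 * (C : ℝ) ^ 2) * (3 * C * L) ^ 2 = L * (δ * L) := by
      field_simp
      ring
    rw [h2] at h1
    exact h1.trans (mul_le_mul_of_nonneg_left hB (by positivity))

end Pool.Agent.IT
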